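import Mathlib

/-! Compatible systems of representations of a group acting on a ring, and their
specialisations. -/

set_option autoImplicit false

namespace Pool.Agent.P.MP_898f40_nt.St

open Polynomial

/-- A family of `l`-adic matrix representations, one for each prime `l`. -/
abbrev Reps (G n : Type) [Group G] [Fintype n] [DecidableEq n] :=
  ∀ (l : ℕ) [Fact l.Prime], G →* GL n ℤ_[l]

/-- A compatible system, unramified away from `l` and pure of weight `w`. -/
structure System (B : Type) {G n : Type} [CommRing B] [Group G] [TopologicalSpace G]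
    [MulSemiringAction G B] [Fintype n] [DecidableEq n] (w : ℕ) (ρ : Reps G n) : Prop where
  cont : ∀ (l : ℕ) [Fact l.Prime], Continuous (ρ l)
  unr : ∀ (l : ℕ) [Fact l.Prime] (P : Ideal B), P.IsPrime → (l : B) ∉ P →
    ∀ σ ∈ P.inertia G, ρ l σ = 1
  frob : ∀ (P : Ideal B) (q : ℕ) (σ : G), P.IsMaximal → 1 < q → (∀ b, σ • b - b ^ q ∈ P) →
    ∃ F : ℤ[X], (∀ z : ℂ, aeval z F = 0 → ‖z‖ ^ 2 = (q : ℝ) ^ w) ∧
      ∀ (l : ℕ) [Fact l.Prime], (l : B) ∉ P →
        (ρ l σ⁻¹).val.charpoly = F.map (Int.castRingHom ℤ_[l])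

/-- `r` is the specialisation of `ρ` along `x`. -/
def Spec {B C G H n : Type} [CommRing B] [CommRing C] [Group G] [Group H] [MulSemiringAction G B]
    [MulSemiringAction H C] [Fintype n] [DecidableEq n] (x : B →+* C) (ρ : Reps G n)
    (r : Reps H n) : Prop :=
  ∀ g : H, (∃ σ : G, ∀ b, x (σ • b) = g • x b) ∧
    ∀ σ : G, (∀ b, x (σ • b) = g • x b) → ∀ (l : ℕ) [Fact l.Prime], r l g = ρ l σ

/-- The action of an invertible `l`-adic matrix on `ℚ_l ^ n`. -/
noncomputable def act {n : Type} [Fintype n] [DecidableEq n] {l : ℕ} [Fact l.Prime]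
    (A : GL n ℤ_[l]) : Module.End ℚ_[l] (n → ℚ_[l]) :=
  Matrix.toLin' (A.val.map (algebraMap ℤ_[l] ℚ_[l]))

end Pool.Agent.P.MP_898f40_nt.St
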